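import Pool.Agent.Q227.MkG

/-!
# Adjacency matrices from lists of structured vertices
-/

set_option autoImplicit false

namespace Pool.Agent.Q227

open Pool.Agent.NPC

/-- The entry of a matrix, given by the list of its rows. -/
def entry (M : List (List Bool)) (i j : ℕ) : Bool := (M.getD i []).getD j false

/-- The matrix is square and symmetric, and its diagonal is zero. -/
structure IsAdjMatrix (M : List (List Bool)) : Prop where
  square : ∀ r ∈ M, r.length = M.length
  symm : ∀ i j, entry M i j = entry M j i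
  diag : ∀ i, entry M i i = false

/-- The graph of an adjacency matrix. -/
def matGraph (M : List (List Bool)) : SimpleGraph (Fin M.length) :=
  SimpleGraph.fromRel fun i j => entry M i.1 j.1 = true

/-- The adjacency matrix of the graph on the members of a list. -/
def mkM {V : Type} (L : List V) (adj : V → V → Bool) : List (List Bool) :=
  L.map fun u => L.map fun v => adj u v

theorem mkM_length {V : Type} (L : List V) (adj : V → V → Bool) :
    (mkM L adj).length = L.length := List.length_map _

theorem entry_mkM {V : Type} {L : List V} {adj : V → V → Bool} {i j : ℕ} :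
    entry (mkM L adj) i j = true ↔
      ∃ (hi : i < L.length) (hj : j < L.length), adj L[i] L[j] = true := by
  unfold entry mkM
  by_cases hi : i < L.length
  · rw [List.getD_eq_getElem (L.map fun u => L.map fun v => adj u v) _
      (by rwa [List.length_map]), List.getElem_map]
    by_cases hj : j < L.length
    · rw [List.getD_eq_getElem _ _ (by rwa [List.length_map]), List.getElem_map]
      exact ⟨fun h => ⟨hi, hj, h⟩, fun ⟨_, _, h⟩ => h⟩
    · rw [List.getD_eq_default _ _ (by rw [List.length_map]; omega)]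
      exact ⟨fun h => absurd h (by decide), fun ⟨_, h, _⟩ => absurd h hj⟩
  · rw [List.getD_eq_default _ [] (by rw [List.length_map]; omega)]
    exact ⟨fun h => absurd h (by simp), fun ⟨h, _⟩ => absurd h hi⟩

theorem mkM_isAdj {V : Type} {L : List V} {adj : V → V → Bool}
    (hs : ∀ u v, adj u v = true → adj v u = true) (hi : ∀ u, adj u u = false) :
    IsAdjMatrix (mkM L adj) := by
  refine ⟨fun r hr => ?_, fun i j => ?_, fun i => ?_⟩
  · obtain ⟨u, _, rfl⟩ := List.mem_map.1 hr
    rw [mkM_length, List.length_map]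
  · rw [Bool.eq_iff_iff, entry_mkM, entry_mkM]
    exact ⟨fun ⟨h1, h2, h3⟩ => ⟨h2, h1, hs _ _ h3⟩, fun ⟨h1, h2, h3⟩ => ⟨h2, h1, hs _ _ h3⟩⟩
  · rw [← Bool.not_eq_true, entry_mkM]
    rintro ⟨h1, h2, h3⟩
    rw [hi] at h3
    exact absurd h3 (by decide)

theorem mkM_iso {V : Type} {L : List V} (hL : L.Nodup) (adj : V → V → Bool)
    (hs : ∀ u v, adj u v = true → adj v u = true) (hi : ∀ u, adj u u = false) :
    Nonempty (matGraph (mkM L adj) ≃g GrL L adj hs hi) := by
  classical
  have hlen := mkM_length L adj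
  let e : Fin (mkM L adj).length ≃ {v : V // v ∈ L} :=
    { toFun := fun i => ⟨L[i.1]'(by rw [← hlen]; exact i.2), List.getElem_mem _⟩
      invFun := fun v => ⟨L.idxOf v.1, by rw [hlen]; exact List.idxOf_lt_length_of_mem v.2⟩
      left_inv := fun i => Fin.ext (hL.idxOf_getElem _ _)
      right_inv := fun v => Subtype.ext (List.getElem_idxOf _) }
  refine ⟨⟨e, ?_⟩⟩
  intro i j
  have hi1 : i.1 < L.length := by rw [← hlen]; exact i.2
  have hj1 : j.1 < L.length := by rw [← hlen]; exact j.2
  change adj L[i.1] L[j.1] = true ↔ _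
  unfold matGraph
  rw [SimpleGraph.fromRel_adj, entry_mkM, entry_mkM]
  constructor
  · intro h
    refine ⟨?_, Or.inl ⟨hi1, hj1, h⟩⟩
    rintro rfl
    rw [hi] at h
    exact absurd h (by decide)
  · rintro ⟨_, ⟨_, _, h⟩ | ⟨_, _, h⟩⟩
    · exact h
    · exact hs _ _ h

theorem mkM_poly {α V : Type} [TEnc α] [TEnc V] {L : α → List V} {adj : α → V → V → Bool}
    (hL : NPC.Poly L) (ha : NPC.Poly (fun p : α × V × V => adj p.1 p.2.1 p.2.2)) :
    NPC.Poly (fun a => mkM (L a) (adj a)) := by
  unfold mkM
  refine NPC.Poly.map (F := fun a u => (L a).map fun v => adj a u v) hL ?_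
  refine NPC.Poly.map (F := fun (p : α × V) v => adj p.1 p.2 v)
    (hL.comp (NPC.Poly.fst NPC.Poly.id)) ?_
  exact ha.comp (NPC.Poly.pair (NPC.Poly.fst (NPC.Poly.fst NPC.Poly.id))
    (NPC.Poly.pair (NPC.Poly.snd (NPC.Poly.fst NPC.Poly.id)) (NPC.Poly.snd NPC.Poly.id)))

end Pool.Agent.Q227
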