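import Pool.Agent.Q227.TF.Mk
import Pool.Agent.H679R2.Oct.Defs
import Pool.Agent.H671R2.PolyAuto

/-!
# Presented graphs from lists of structured vertices
-/

set_option autoImplicit false

namespace Pool.Agent.Q227

open Pool.Agent.NPC Pool.Agent.H679R2

/-- The presented graph whose vertices are the positions in the list `L`. -/
def mkG {V : Type} (L : List V) (adj : V → V → Bool) : List ℕ × List (ℕ × ℕ) :=
  (List.range L.length, (mkDG L adj).2)

/-- The graph on the members of `L`. -/
def GrL {V : Type} (L : List V) (adj : V → V → Bool) (hs : ∀ u v, adj u v = true → adj v u = true)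
    (hi : ∀ u, adj u u = false) : SimpleGraph {v : V // v ∈ L} where
  Adj u v := adj u.1 v.1 = true
  symm := ⟨fun _ _ h => hs _ _ h⟩
  loopless := ⟨fun u h => by rw [hi] at h; exact Bool.noConfusion h⟩

theorem mkG_iso {V : Type} {L : List V} (hL : L.Nodup) (adj : V → V → Bool)
    (hs : ∀ u v, adj u v = true → adj v u = true) (hi : ∀ u, adj u u = false) :
    Nonempty (toGraph (mkG L adj) ≃g GrL L adj hs hi) := by
  classical
  let e : {i : ℕ // i ∈ (mkG L adj).1} ≃ {v : V // v ∈ L} :=
    { toFun := fun i => ⟨L[i.1]'(List.mem_range.1 i.2), List.getElem_mem _⟩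
      invFun := fun v => ⟨L.idxOf v.1, List.mem_range.2 (List.idxOf_lt_length_of_mem v.2)⟩
      left_inv := fun i => Subtype.ext (hL.idxOf_getElem _ _)
      right_inv := fun v => Subtype.ext (List.getElem_idxOf _) }
  refine ⟨⟨e, ?_⟩⟩
  rintro ⟨i, hi'⟩ ⟨j, hj'⟩
  have hi1 : i < L.length := List.mem_range.1 hi'
  have hj1 : j < L.length := List.mem_range.1 hj'
  change adj L[i] L[j] = true ↔ _
  have h1 : ∀ i j : ℕ, (hi : i < L.length) → (hj : j < L.length) →
      ((i, j) ∈ (mkG L adj).2 ↔ adj L[i] L[j] = true) := by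
    intro i j hi hj
    exact mem_mkDG_fin (L := L) (arc := adj) ⟨i, hi⟩ ⟨j, hj⟩
  constructor
  · intro h
    refine ⟨fun h2 => ?_, Or.inl ((h1 i j hi1 hj1).2 h)⟩
    have h3 : i = j := congrArg Subtype.val h2
    subst h3
    rw [hi] at h
    exact Bool.noConfusion h
  · rintro ⟨_, h | h⟩
    · exact (h1 i j hi1 hj1).1 h
    · exact hs _ _ ((h1 j i hj1 hi1).1 h)

theorem mkG_poly {α V : Type} [TEnc α] [TEnc V] {L : α → List V} {adj : α → V → V → Bool}
    (hL : NPC.Poly L) (ha : NPC.Poly (fun p : α × V × V => adj p.1 p.2.1 p.2.2)) :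
    NPC.Poly (fun a => mkG (L a) (adj a)) :=
  NPC.Poly.pair (UPoly.length hL).range (NPC.Poly.snd (mkDG_poly hL ha))

end Pool.Agent.Q227
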