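import Pool.Agent.H679R2.Oct.Pol
import Pool.Agent.H679R2.Oct.Mem

/-!
# Hamiltonian cycles of graphs on `0, …, n - 1`, in the form of lists
-/

set_option autoImplicit false

namespace Pool.Agent.Q227.HC

open Pool.Agent.NPC Pool.Agent.H679R2

/-- Adjacency in the graph with the list of edges `E`. -/
def adjE (E : List (ℕ × ℕ)) (u v : ℕ) : Bool :=
  !decide (u = v) && (decide ((u, v) ∈ E) || decide ((v, u) ∈ E))

theorem adjE_symm {E : List (ℕ × ℕ)} {u v : ℕ} (h : adjE E u v = true) : adjE E v u = true := by
  simp only [adjE, Bool.and_eq_true, Bool.not_eq_true', decide_eq_false_iff_not,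
    Bool.or_eq_true, decide_eq_true_eq] at h ⊢
  exact ⟨fun h' => h.1 h'.symm, h.2.symm⟩

theorem adjE_ne {E : List (ℕ × ℕ)} {u v : ℕ} (h : adjE E u v = true) : u ≠ v := by
  simp only [adjE, Bool.and_eq_true, Bool.not_eq_true', decide_eq_false_iff_not] at h
  exact h.1

theorem adjE_poly {α : Type} [TEnc α] {E : α → List (ℕ × ℕ)} {u v : α → ℕ}
    (hE : NPC.Poly E) (hu : NPC.Poly u) (hv : NPC.Poly v) :
    NPC.Poly (fun a => adjE (E a) (u a) (v a)) := by
  refine NPC.Poly.and (NPC.Poly.not (NPC.Poly.decide_eq hu hv)) (NPC.Poly.or ?_ ?_)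
  · exact (NPC.Poly.decide_mem (NPC.Poly.pair hu hv) hE).congr fun a => by
      simp only [decide_eq_decide]
  · exact (NPC.Poly.decide_mem (NPC.Poly.pair hv hu) hE).congr fun a => by
      simp only [decide_eq_decide]

/-- The graph on `0, …, I.1 - 1` with the list of edges `I.2` has a Hamiltonian cycle
`0, t_1, …, t_{n-1}, 0`. -/
def HamL (I : ℕ × List (ℕ × ℕ)) : Prop :=
  ∃ t : List ℕ, (0 :: t).Nodup ∧ (∀ x, x ∈ 0 :: t ↔ x < I.1) ∧
    (0 :: (t ++ [0])).IsChain (fun u v => adjE I.2 u v = true)

theorem closed_rotate {α : Type*} {R : α → α → Prop} {a b : α} {u v : List α}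
    (h : (a :: ((u ++ b :: v) ++ [a])).IsChain R) : (b :: ((v ++ a :: u) ++ [b])).IsChain R := by
  have h1 : a :: ((u ++ b :: v) ++ [a]) = (a :: u) ++ b :: (v ++ [a]) := by simp
  have h2 : b :: ((v ++ a :: u) ++ [b]) = (b :: v) ++ a :: (u ++ [b]) := by simp
  rw [h1, List.isChain_split] at h
  rw [h2, List.isChain_split]
  exact ⟨h.2, h.1⟩

theorem length_of_range {t : List ℕ} {n : ℕ} (h1 : t.Nodup) (h2 : ∀ x, x ∈ t ↔ x < n) :
    t.length = n := by
  have h3 : t.toFinset = Finset.range n := by
    ext x
    rw [List.mem_toFinset, Finset.mem_range, h2]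
  rw [← List.toFinset_card_of_nodup h1, h3, Finset.card_range]

theorem ham_iff_hamL {n : ℕ} {E : List (ℕ × ℕ)} (hn : 3 ≤ n) :
    HasHamCycle (List.range n, E) ↔ HamL (n, E) := by
  rw [H679.ham_iff]
  constructor
  · rintro ⟨w, -, hw⟩
    simp only [H679.cyb, Bool.and_eq_true, decide_eq_true_eq, List.all_eq_true] at hw
    obtain ⟨h1, h2, h3, h4, h5, h6⟩ := hw
    rw [H679.chb_iff] at h1
    rw [H679.ndb_iff] at h4
    obtain ⟨a, u, rfl⟩ : ∃ a u, w = a :: u := by
      cases w with
      | nil => simp at h2
      | cons a u => exact ⟨a, u, rfl⟩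
    rw [List.tail_cons] at h4
    obtain ⟨u', b, rfl⟩ : ∃ u' b, u = u' ++ [b] := by
      rcases List.eq_nil_or_concat u with h | ⟨u', b, h⟩
      · subst h
        simp at h2
      · exact ⟨u', b, by rw [h, List.concat_eq_append]⟩
    have hab : a = b := by
      simpa using h3
    subst hab
    have hnd : (a :: u').Nodup := by
      have := List.nodup_append_comm.1 h4
      simpa using this
    have hmem : ∀ x, x ∈ a :: u' ↔ x < n := by
      intro x
      constructor
      · intro hx
        have := h6 x (by
          rcases List.mem_cons.1 hx with h | h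
          · exact List.mem_cons.2 (Or.inl h)
          · exact List.mem_cons.2 (Or.inr (List.mem_append.2 (Or.inl h))))
        simpa using this
      · intro hx
        have := h5 x (by simpa using hx)
        simp only [List.mem_cons, List.mem_append, List.not_mem_nil, or_false] at this ⊢
        tauto
    by_cases ha : a = 0
    · subst ha
      exact ⟨u', hnd, hmem, h1⟩
    · have h0 : (0 : ℕ) ∈ u' := by
        have := (hmem 0).2 (by omega)
        rcases List.mem_cons.1 this with h | h
        · exact absurd h.symm ha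
        · exact h
      obtain ⟨u, v, rfl⟩ := List.append_of_mem h0
      refine ⟨v ++ a :: u, ?_, ?_, closed_rotate h1⟩
      · have h7 : List.Perm (0 :: (v ++ a :: u)) (a :: (u ++ 0 :: v)) := by
          have h8 : 0 :: (v ++ a :: u) = (0 :: v) ++ (a :: u) := rfl
          have h9 : a :: (u ++ 0 :: v) = (a :: u) ++ (0 :: v) := rfl
          rw [h8, h9]
          exact List.perm_append_comm
        exact h7.nodup_iff.2 hnd
      · intro x
        rw [← hmem x]
        simp only [List.mem_cons, List.mem_append]
        tauto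
  · rintro ⟨t, h1, h2, h3⟩
    have hlen : (0 :: t).length = n := length_of_range h1 h2
    refine ⟨0 :: (t ++ [0]), ?_, ?_⟩
    · have hmem : ∀ v ∈ 0 :: (t ++ [0]), v ∈ List.range n := by
        intro v hv
        rw [List.mem_range]
        apply (h2 v).1
        simp only [List.mem_cons, List.mem_append, List.not_mem_nil, or_false] at hv ⊢
        tauto
      have h4 := sz_le_length_mul (0 :: (t ++ [0])) (sz (List.range n, E)) (fun v hv => by
        have h5 := sz_le_of_mem (hmem v hv)
        have h6 : sz (List.range n, E) = sz (List.range n) + sz E + 1 := sz_pair _ _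
        omega)
      have h5 := length_lt_sz (List.range n)
      have h6 : sz (List.range n, E) = sz (List.range n) + sz E + 1 := sz_pair _ _
      have h7 : (0 :: (t ++ [0])).length ≤ sz (List.range n, E) + 2 := by
        simp only [List.length_cons, List.length_append, List.length_nil, List.length_range] at *
        omega
      simp only [Polynomial.eval_add, Polynomial.eval_mul, Polynomial.eval_X,
        Polynomial.eval_ofNat, Polynomial.eval_one]
      exact h4.trans (Nat.add_le_add_right (Nat.mul_le_mul_right _ h7) 1)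
    · simp only [H679.cyb, Bool.and_eq_true, decide_eq_true_eq, List.all_eq_true]
      refine ⟨?_, ?_, ?_, ?_, ?_, ?_⟩
      · rw [H679.chb_iff]
        exact h3
      · simp only [List.length_cons, List.length_append, List.length_nil] at hlen ⊢
        omega
      · simp
      · rw [H679.ndb_iff, List.tail_cons]
        exact List.nodup_append_comm.1 (by simpa using h1)
      · intro x hx
        have := (h2 x).2 (by simpa using hx)
        simp only [List.mem_cons, List.mem_append, List.not_mem_nil, or_false] at this ⊢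
        tauto
      · intro x hx
        rw [List.mem_range, ← h2 x]
        simp only [List.mem_cons, List.mem_append, List.not_mem_nil, or_false] at hx ⊢
        tauto

/-- The Hamiltonian cycle problem is hard on graphs with vertices `0, …, n - 1`, `n ≥ 3`, where
`n` is given by a list of length `n`. -/
theorem hardPr_hamL : HardPr (fun I : List ℕ × List (ℕ × ℕ) => 3 ≤ I.1.length)
    (fun I => HamL (I.1.length, I.2)) := by
  have h0 : ∀ φ, ∃ n E, 3 ≤ n ∧ Pool.Agent.H679R2.red 6 φ = (List.range n, E) := by
    intro φ
    unfold Pool.Agent.H679R2.red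
    by_cases hφ : φ = []
    · subst hφ
      exact ⟨3, [(0, 1), (1, 2), (2, 0)], le_rfl, rfl⟩
    · rw [if_neg (by simpa using hφ)]
      refine ⟨_, _, ?_, rfl⟩
      have : 0 < (Pool.Agent.H679R2.occ φ).length := List.length_pos_of_ne_nil
        (fun h => hφ ((Pool.Agent.H679R2.occ_eq_nil φ).1 h))
      nlinarith
  refine hardI_SAT3.toHardPr.trans (f := Pool.Agent.H679R2.red 6) (H679.red_poly 6) ?_ ?_
  · intro φ _
    obtain ⟨n, E, hn, h⟩ := h0 φ
    rw [h]
    simpa using hn
  · intro φ _
    obtain ⟨n, E, hn, h⟩ := h0 φ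
    rw [Pool.Agent.H679R2.red_ham 6 (by omega) φ, h, ham_iff_hamL hn]
    simp only [List.length_range]

end Pool.Agent.Q227.HC
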