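import Pool.Agent.H673R2.Search

/-!
# Using a polynomial-time function as a subroutine
-/

set_option autoImplicit false

namespace Pool.Agent.Q227

open Pool.Agent.NPC Pool.Agent.H673R2

/-- A polynomial-time function on bit strings can be applied to codes. -/
theorem poly_of_polyTime {f : List Bool → List Bool} (hf : PolyTime f) {α : Type} [TEnc α] :
    NPC.Poly (fun a : α => f (bits a)) := by
  have h1 : PC (fun x : List Bool => x) (fun x : List Bool => x) f :=
    H642R2.TMSim.polyTime_toPC hf
  have h2 : PC (bits : α → List Bool) (fun x : List Bool => x) (fun a => bits a) := by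
    obtain ⟨c, p, h⟩ := PC.id (ea := (fun x : List Bool => x))
    exact ⟨c, p, fun a => h (bits a)⟩
  exact PC.comp (g := fun x => x) (f := fun a : α => f (bits a)) PC.rawIn
    (PC.comp (g := f) (f := fun a : α => bits a) h1 h2)

/-- A hard problem is not decided by a polynomial-time function on encodable data, if
`P ≠ NP`. -/
theorem no_poly_decider {α : Type} [TEnc α] {Pr P : α → Prop} (hP : HardPr Pr P) (hne : PneNP) :
    ¬ ∃ d : α → Bool, NPC.Poly d ∧ ∀ a, Pr a → (P a ↔ d a = true) := by
  obtain ⟨L, hL, hL'⟩ := hne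
  rintro ⟨d, hd, h⟩
  obtain ⟨g, hg, hpr, hgL⟩ := hP L hL
  refine hL' ⟨fun x => [d (g x)], ?_, fun x => ?_⟩
  · exact PC.toPolyTime (PC.comp (g := fun b => [b]) (f := fun x => d (g x)) PC.rawBool
      (PC.comp (g := d) (f := g) hd hg))
  · rw [hgL x, h _ (hpr x)]
    simp

/-- The decision procedure obtained from an algorithm for a search problem. -/
theorem poly_of_search {α β : Type} [TEnc α] [TEnc β] {Pr : α → Prop} {Sol : α → β → Prop}
    {f : List Bool → List Bool} (hf : PolyTime f) (hs : SolvesSearch Pr Sol f) :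
    ∃ d : α → Bool, NPC.Poly d ∧ ∀ a, Pr a → ((∃ b, Sol a b) ↔ d a = true) := by
  refine ⟨fun a => decide ((f (bits a)).head? = some true), ?_, fun a ha => ?_⟩
  · exact Poly.decide_eq (Poly.head? (poly_of_polyTime hf)) (NPC.Poly.const _)
  · change (∃ b, Sol a b) ↔ decide ((f (bits a)).head? = some true) = true
    rcases hs a ha with ⟨b, hb, hS⟩ | ⟨hb, hS⟩
    · rw [hb]
      exact ⟨fun _ => by simp [bits, T.enc], fun _ => ⟨b, hS⟩⟩
    · rw [hb]
      refine ⟨fun ⟨b, hb'⟩ => absurd hb' (hS b), fun h => ?_⟩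
      simp [bits, T.enc] at h

end Pool.Agent.Q227
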