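import Pool.Agent.H673R2.Search

/-!
# Hard problems have no polynomial-time decision algorithm if `P ≠ NP`
-/

set_option autoImplicit false

namespace Pool.Agent.Q227

open Pool.Agent.NPC Pool.Agent.H673R2

theorem no_decider {α : Type} [TEnc α] {Pr P : α → Prop} (h : NPHardOn Pr P) (hne : PneNP) :
    ¬ ∃ A : List Bool → List Bool, PolyTime A ∧ ∀ a : α, Pr a →
      (P a → A (bits a) = [true]) ∧ (¬ P a → A (bits a) = [false]) := by
  obtain ⟨L, hL, hL'⟩ := hne
  rintro ⟨A, hA, hAD⟩
  obtain ⟨f, hf, hpr, hfL⟩ := h L hL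
  refine hL' ⟨fun x => A (bits (f x)), H642R2.TMSim.polyTime_comp hA hf, fun x => ?_⟩
  rw [hfL x]
  constructor
  · exact (hAD _ (hpr x)).1
  · intro h1
    by_contra h2
    have h3 := (hAD _ (hpr x)).2 h2
    have h4 : A (bits (f x)) = [true] := h1
    rw [h3] at h4
    exact absurd h4 (by decide)

theorem no_decider_co {α : Type} [TEnc α] {Pr P : α → Prop}
    (h : NPHardOn Pr (fun a => ¬ P a)) (hne : PneNP) :
    ¬ ∃ A : List Bool → List Bool, PolyTime A ∧ ∀ a : α, Pr a →
      (P a → A (bits a) = [true]) ∧ (¬ P a → A (bits a) = [false]) := by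
  rintro ⟨A, hA, hAD⟩
  obtain ⟨L, hL, hL'⟩ := hne
  obtain ⟨f, hf, hpr, hfL⟩ := h L hL
  refine hL' ⟨fun x => [decide (A (bits (f x)) = [false])], ?_, fun x => ?_⟩
  · exact polyTime_test (g := fun y => decide (y = [false]))
      (H642R2.TMSim.polyTime_comp (g := A) (f := fun x => bits (f x)) hA hf)
      (Poly.decide_eq Poly.id (NPC.Poly.const _))
  · rw [hfL x]
    beta_reduce
    constructor
    · intro h1
      rw [(hAD _ (hpr x)).2 h1]
      rfl
    · intro h1 h2
      rw [(hAD _ (hpr x)).1 h2] at h1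
      exact absurd h1 (by decide)

end Pool.Agent.Q227
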